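import Mathlib

namespace Pool.Agent.Results.MP_0de6ea_al.BallGrowth

/-- A marked `d`-generated group. -/
structure MarkedGroup (d : ℕ) where
  G : Type
  [grp : Group G]
  s : Fin d → G
  gen : Subgroup.closure (Set.range s) = ⊤

attribute [instance] MarkedGroup.grp

/-- The value of a letter: `(i, true)` is `sᵢ` and `(i, false)` is `sᵢ⁻¹`. -/
def letter {G : Type} [Group G] {d : ℕ} (s : Fin d → G) (l : Fin d × Bool) : G :=
  if l.2 then s l.1 else (s l.1)⁻¹

/-- The value of a word. -/
def eval {G : Type} [Group G] {d : ℕ} (s : Fin d → G) (w : List (Fin d × Bool)) : G :=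
  (w.map (letter s)).prod

/-- The vertex set of the marked ball of radius `n`: the elements of word length at most `n`. -/
def ball {d : ℕ} (M : MarkedGroup d) (n : ℕ) : Set M.G :=
  {g | ∃ w : List (Fin d × Bool), w.length ≤ n ∧ eval M.s w = g}

/-- The marked balls of radius `n` of `M` and `M'` are isomorphic: some bijection between the
vertex sets sends root to root and preserves and reflects the edges `g → g sᵢ` labelled `i`. -/
def BallIso {d : ℕ} (n : ℕ) (M M' : MarkedGroup d) : Prop :=
  ∃ φ : ball M n ≃ ball M' n, (∀ g : ball M n, g.1 = 1 → (φ g).1 = 1) ∧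
    ∀ (g h : ball M n) (i : Fin d), g.1 * M.s i = h.1 ↔ (φ g).1 * M'.s i = (φ h).1

theorem one_mem_ball {d : ℕ} (M : MarkedGroup d) (n : ℕ) : (1 : M.G) ∈ ball M n :=
  ⟨[], by simp, by simp [eval]⟩

theorem ballIso_refl {d n : ℕ} (M : MarkedGroup d) : BallIso n M M :=
  ⟨Equiv.refl _, fun _ h => h, fun _ _ _ => Iff.rfl⟩

theorem ballIso_symm {d n : ℕ} {M M' : MarkedGroup d} (h : BallIso n M M') : BallIso n M' M := by
  obtain ⟨φ, h1, h2⟩ := h
  refine ⟨φ.symm, ?_, ?_⟩
  · intro g hg
    have h3 := h1 ⟨1, one_mem_ball M n⟩ rfl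
    have h4 : φ ⟨1, one_mem_ball M n⟩ = g := Subtype.ext (h3.trans hg.symm)
    rw [← h4]
    simp
  · intro g h i
    have := h2 (φ.symm g) (φ.symm h) i
    simp only [Equiv.apply_symm_apply] at this
    exact this.symm

theorem ballIso_trans {d n : ℕ} {M M' M'' : MarkedGroup d} (h : BallIso n M M')
    (h' : BallIso n M' M'') : BallIso n M M'' := by
  obtain ⟨φ, h1, h2⟩ := h
  obtain ⟨ψ, h3, h4⟩ := h'
  refine ⟨φ.trans ψ, fun g hg => h3 _ (h1 g hg), fun g h i => ?_⟩
  exact (h2 g h i).trans (h4 (φ g) (φ h) i)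

/-- The equivalence relation of having isomorphic marked balls of radius `n`. -/
def ballSetoid (d n : ℕ) : Setoid (MarkedGroup d) where
  r := BallIso n
  iseqv := ⟨fun M => ballIso_refl M, ballIso_symm, ballIso_trans⟩

/-- Isomorphism classes of marked balls of radius `n` of marked `d`-generated groups. -/
def BallClass (d n : ℕ) : Type 1 := Quotient (ballSetoid d n)

/-- `f_d(n)`: the number of isomorphism classes of marked balls of radius `n`. -/
noncomputable def f (d n : ℕ) : ℕ := Nat.card (BallClass d n)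

/-- `g_d(n)`: the number of isomorphism classes of marked balls of radius `n` of finite groups. -/
noncomputable def g (d n : ℕ) : ℕ :=
  Nat.card {q : BallClass d n // ∃ M : MarkedGroup d, Finite M.G ∧
    (Quotient.mk (ballSetoid d n) M : BallClass d n) = q}

section words

variable {G : Type} [Group G] {d : ℕ}

theorem eval_nil (s : Fin d → G) : eval s [] = 1 := by simp [eval]

theorem eval_append (s : Fin d → G) (u v : List (Fin d × Bool)) :
    eval s (u ++ v) = eval s u * eval s v := by simp [eval]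

theorem eval_cons (s : Fin d → G) (l : Fin d × Bool) (v : List (Fin d × Bool)) :
    eval s (l :: v) = letter s l * eval s v := by simp [eval]

theorem eval_singleton (s : Fin d → G) (l : Fin d × Bool) :
    eval s [l] = letter s l := by simp [eval]

/-- formal inverse of a word -/
def winv (w : List (Fin d × Bool)) : List (Fin d × Bool) :=
  (w.map (fun l => (l.1, !l.2))).reverse

theorem winv_length (w : List (Fin d × Bool)) : (winv w).length = w.length := by simp [winv]

theorem letter_not (s : Fin d → G) (l : Fin d × Bool) :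
    letter s (l.1, !l.2) = (letter s l)⁻¹ := by
  rcases l with ⟨i, b⟩
  cases b <;> simp [letter]

theorem eval_winv (s : Fin d → G) (w : List (Fin d × Bool)) :
    eval s (winv w) = (eval s w)⁻¹ := by
  induction w with
  | nil => simp [winv, eval]
  | cons l w ih =>
    have h1 : winv (l :: w) = winv w ++ [(l.1, !l.2)] := by simp [winv]
    rw [h1, eval_append, ih, eval_singleton, letter_not, eval_cons, mul_inv_rev]

end words

theorem eval_mem_ball {d n : ℕ} (M : MarkedGroup d) {w : List (Fin d × Bool)} (hw : w.length ≤ n) :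
    eval M.s w ∈ ball M n := ⟨w, hw, rfl⟩

/-- An isomorphism of marked balls respects words. -/
theorem iso_word {d n : ℕ} {M M' : MarkedGroup d} (φ : ball M n ≃ ball M' n)
    (h1 : ∀ g : ball M n, g.1 = 1 → (φ g).1 = 1)
    (h2 : ∀ (g h : ball M n) (i : Fin d), g.1 * M.s i = h.1 ↔ (φ g).1 * M'.s i = (φ h).1)
    (w : List (Fin d × Bool)) : ∀ hw : w.length ≤ n,
      (φ ⟨eval M.s w, eval_mem_ball M hw⟩).1 = eval M'.s w := by
  induction w using List.reverseRecOn with
  | nil =>
    intro hw
    rw [h1 _ (eval_nil M.s), eval_nil]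
  | append_singleton w l ih =>
    intro hw
    have hw' : w.length ≤ n := by
      rw [List.length_append] at hw
      omega
    have ih' := ih hw'
    rcases l with ⟨i, b⟩
    cases b with
    | true =>
      have := (h2 ⟨eval M.s w, eval_mem_ball M hw'⟩
        ⟨eval M.s (w ++ [(i, true)]), eval_mem_ball M hw⟩ i).1 (by
          simp [eval_append, eval_singleton, letter])
      rw [← this, ih']
      simp [eval_append, eval_singleton, letter]
    | false =>
      have := (h2 ⟨eval M.s (w ++ [(i, false)]), eval_mem_ball M hw⟩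
        ⟨eval M.s w, eval_mem_ball M hw'⟩ i).1 (by
          simp [eval_append, eval_singleton, letter])
      rw [ih'] at this
      have e1 : eval M'.s (w ++ [(i, false)]) = eval M'.s w * (M'.s i)⁻¹ := by
        rw [eval_append, eval_singleton]
        rfl
      rw [e1, ← this, mul_inv_cancel_right]

/-- Marked balls of radius `n` are isomorphic iff the relations of length `≤ 2 n + 1` agree. -/
theorem ballIso_iff {d n : ℕ} {M M' : MarkedGroup d} :
    BallIso n M M' ↔ ∀ w : List (Fin d × Bool), w.length ≤ 2 * n + 1 →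
      (eval M.s w = 1 ↔ eval M'.s w = 1) := by
  constructor
  · rintro ⟨φ, h1, h2⟩ w hw
    have key := iso_word φ h1 h2
    have hu : (w.take n).length ≤ n := by simp
    have hsplit : w = w.take n ++ w.drop n := (List.take_append_drop n w).symm
    have hlen : (w.drop n).length ≤ n + 1 := by
      rw [List.length_drop]
      omega
    generalize w.take n = u at *
    generalize w.drop n = v at *
    subst hsplit
    rcases v with _ | ⟨⟨i, b⟩, v⟩
    · rw [List.append_nil]
      constructor
      · intro h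
        have := key u hu
        rw [← this]
        exact h1 _ h
      · intro h
        have h3 := key u hu
        have h4 := h1 ⟨1, one_mem_ball M n⟩ rfl
        have h5 : φ ⟨eval M.s u, eval_mem_ball M hu⟩ = φ ⟨1, one_mem_ball M n⟩ :=
          Subtype.ext (by rw [h3, h4, h])
        have h6 := φ.injective h5
        exact congrArg Subtype.val h6
    · have hv : (winv v).length ≤ n := by
        rw [winv_length]
        simp only [List.length_cons] at hlen
        omega
      have ku := key u hu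
      have kv := key (winv v) hv
      rw [eval_append, eval_cons, eval_append, eval_cons]
      cases b with
      | true =>
        have h3 := h2 ⟨_, eval_mem_ball M hu⟩ ⟨_, eval_mem_ball M hv⟩ i
        rw [ku, kv] at h3
        change eval M.s u * M.s i = eval M.s (winv v) ↔ _ at h3
        rw [eval_winv, eval_winv] at h3
        simp only [letter, if_true]
        rw [← mul_assoc, ← mul_assoc, mul_eq_one_iff_eq_inv, mul_eq_one_iff_eq_inv]
        exact h3
      | false =>
        have h3 := h2 ⟨_, eval_mem_ball M hv⟩ ⟨_, eval_mem_ball M hu⟩ i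
        rw [ku, kv] at h3
        change eval M.s (winv v) * M.s i = eval M.s u ↔ _ at h3
        rw [eval_winv, eval_winv] at h3
        simp only [letter, Bool.false_eq_true, if_false]
        rw [← mul_assoc, ← mul_assoc, mul_eq_one_iff_eq_inv, mul_eq_one_iff_eq_inv,
          mul_inv_eq_iff_eq_mul, mul_inv_eq_iff_eq_mul]
        exact ⟨fun h => (h3.1 h.symm).symm, fun h => (h3.2 h.symm).symm⟩
  · intro hrel
    have hcl : ∀ u v : List (Fin d × Bool), u.length ≤ n → v.length ≤ n →
        (eval M.s u = eval M.s v ↔ eval M'.s u = eval M'.s v) := by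
      intro u v hu hv
      have := hrel (u ++ winv v) (by rw [List.length_append, winv_length]; omega)
      rw [eval_append, eval_append, eval_winv, eval_winv, mul_inv_eq_one, mul_inv_eq_one] at this
      exact this
    let φ : ball M n → ball M' n := fun g => ⟨eval M'.s g.2.choose,
      eval_mem_ball M' g.2.choose_spec.1⟩
    have hφ : ∀ (g : ball M n) (w : List (Fin d × Bool)), w.length ≤ n → eval M.s w = g.1 →
        (φ g).1 = eval M'.s w := by
      intro g w hw hg
      exact (hcl _ _ g.2.choose_spec.1 hw).1 (g.2.choose_spec.2.trans hg.symm)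
    have hinj : Function.Injective φ := by
      intro g h hgh
      have h1 := hφ g _ g.2.choose_spec.1 g.2.choose_spec.2
      have h2 := hφ h _ h.2.choose_spec.1 h.2.choose_spec.2
      have h3 : (φ g).1 = (φ h).1 := congrArg Subtype.val hgh
      rw [h1, h2] at h3
      have h4 := (hcl _ _ g.2.choose_spec.1 h.2.choose_spec.1).2 h3
      rw [g.2.choose_spec.2, h.2.choose_spec.2] at h4
      exact Subtype.ext h4
    have hsurj : Function.Surjective φ := by
      rintro ⟨g', w, hw, hg'⟩
      refine ⟨⟨eval M.s w, eval_mem_ball M hw⟩, Subtype.ext ?_⟩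
      rw [hφ _ w hw rfl]
      exact hg'
    refine ⟨Equiv.ofBijective φ ⟨hinj, hsurj⟩, ?_, ?_⟩
    · intro g hg
      have := hφ g [] (by simp) (by rw [eval_nil, hg])
      rw [eval_nil] at this
      exact this
    · intro g h i
      obtain ⟨g, u, hu, rfl⟩ := g
      obtain ⟨h, v, hv, rfl⟩ := h
      change eval M.s u * M.s i = eval M.s v ↔ (φ _).1 * M'.s i = (φ _).1
      rw [hφ _ u hu rfl, hφ _ v hv rfl]
      have := hrel (u ++ (i, true) :: winv v) (by
        rw [List.length_append, List.length_cons, winv_length]; omega)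
      rw [eval_append, eval_cons, eval_append, eval_cons, eval_winv, eval_winv, ← mul_assoc,
        ← mul_assoc, mul_inv_eq_one, mul_inv_eq_one] at this
      simpa only [letter, if_true] using this

/-- The set of relations of length `≤ 2 n + 1` as an injective invariant. -/
noncomputable def relSet (d n : ℕ) :
    BallClass d n → Set {w : List (Fin d × Bool) // w.length ≤ 2 * n + 1} :=
  Quotient.lift (fun M : MarkedGroup d => {w | eval M.s w.1 = 1}) (by
    intro M M' h
    ext w
    exact (ballIso_iff.1 h) w.1 w.2)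

theorem relSet_injective (d n : ℕ) : Function.Injective (relSet d n) := by
  intro q q'
  refine Quotient.inductionOn₂ q q' ?_
  intro M M' h
  refine Quotient.sound (ballIso_iff.2 fun w hw => ?_)
  have : (⟨w, hw⟩ : {w : List (Fin d × Bool) // w.length ≤ 2 * n + 1}) ∈
      {w : {w : List (Fin d × Bool) // w.length ≤ 2 * n + 1} | eval M.s w.1 = 1} ↔
    (⟨w, hw⟩ : {w : List (Fin d × Bool) // w.length ≤ 2 * n + 1}) ∈
      {w : {w : List (Fin d × Bool) // w.length ≤ 2 * n + 1} | eval M'.s w.1 = 1} := by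
    have h' : {w : {w : List (Fin d × Bool) // w.length ≤ 2 * n + 1} | eval M.s w.1 = 1} =
      {w : {w : List (Fin d × Bool) // w.length ≤ 2 * n + 1} | eval M'.s w.1 = 1} := h
    rw [h']
  exact this

/-- Words of length at most `m` embed in `Fin m → Option _`. -/
theorem words_embed (d m : ℕ) : Function.Injective
    (fun (w : {w : List (Fin d × Bool) // w.length ≤ m}) (i : Fin m) => w.1[i.1]?) := by
  intro u v h
  apply Subtype.ext
  apply List.ext_getElem?
  intro i
  by_cases hi : i < m
  · exact congrFun h ⟨i, hi⟩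
  · rw [List.getElem?_eq_none (by have := u.2; omega), List.getElem?_eq_none (by
      have := v.2; omega)]

instance finite_words (d m : ℕ) : Finite {w : List (Fin d × Bool) // w.length ≤ m} :=
  Finite.of_injective _ (words_embed d m)

instance finite_ballClass (d n : ℕ) : Finite (BallClass d n) :=
  Finite.of_injective _ (relSet_injective d n)

theorem card_words (d m : ℕ) :
    Nat.card {w : List (Fin d × Bool) // w.length ≤ m} ≤ (2 * d + 1) ^ m := by
  have h := Nat.card_le_card_of_injective _ (words_embed d m)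
  refine h.trans (le_of_eq ?_)
  rw [Nat.card_eq_fintype_card, Fintype.card_fun, Fintype.card_option, Fintype.card_prod,
    Fintype.card_fin, Fintype.card_bool, Fintype.card_fin, mul_comm]

theorem card_set' (α : Type) [Finite α] : Nat.card (Set α) = 2 ^ Nat.card α := by
  classical
  have := Fintype.ofFinite α
  rw [Nat.card_eq_fintype_card, Fintype.card_set, Nat.card_eq_fintype_card]

theorem f_le (d n : ℕ) : f d n ≤ 2 ^ ((2 * d + 1) ^ (2 * n + 1)) := by
  have h := Nat.card_le_card_of_injective _ (relSet_injective d n)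
  refine h.trans ?_
  rw [card_set']
  exact Nat.pow_le_pow_right (by norm_num) (card_words d _)

theorem g_le_f (d n : ℕ) : g d n ≤ f d n :=
  Nat.card_le_card_of_injective _ Subtype.val_injective


/-! ### The case `d = 1` -/

section one

/-- exponent sum -/
def zexp (w : List (Fin 1 × Bool)) : ℤ := (w.map (fun l => if l.2 then (1 : ℤ) else -1)).sum

theorem eval_zexp {G : Type} [Group G] (s : Fin 1 → G) (w : List (Fin 1 × Bool)) :
    eval s w = s 0 ^ zexp w := by
  induction w with
  | nil => simp [eval, zexp]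
  | cons l w ih =>
    rcases l with ⟨i, b⟩
    obtain rfl : i = 0 := Subsingleton.elim _ _
    rw [eval_cons, ih]
    have h : zexp ((0, b) :: w) = (if b then (1 : ℤ) else -1) + zexp w := by simp [zexp]
    rw [h, zpow_add]
    cases b <;> simp [letter]

theorem zexp_bound (w : List (Fin 1 × Bool)) : |zexp w| ≤ w.length := by
  induction w with
  | nil => simp [zexp]
  | cons l w ih =>
    rcases l with ⟨i, b⟩
    have h : zexp ((i, b) :: w) = (if b then (1 : ℤ) else -1) + zexp w := by simp [zexp]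
    rw [h, List.length_cons]
    push_cast
    rw [abs_le] at *
    cases b <;> simp <;> constructor <;> omega

/-- the possible sets of relations -/
def cycRel (n : ℕ) (k : Fin (2 * n + 2)) : Set {w : List (Fin 1 × Bool) // w.length ≤ 2 * n + 1} :=
  {w | ((k.1 : ℕ) : ℤ) ∣ zexp w.1}

theorem relSet_one (n : ℕ) (q : BallClass 1 n) : ∃ k : Fin (2 * n + 2), relSet 1 n q = cycRel n k := by
  refine Quotient.inductionOn q ?_
  intro M
  have key : ∀ k : Fin (2 * n + 2), (∀ w : List (Fin 1 × Bool), w.length ≤ 2 * n + 1 →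
      (eval M.s w = 1 ↔ ((k.1 : ℕ) : ℤ) ∣ zexp w)) →
      relSet 1 n (Quotient.mk (ballSetoid 1 n) M) = cycRel n k := by
    intro k hk
    ext w
    exact hk w.1 w.2
  by_cases ho : orderOf (M.s 0) ≤ 2 * n + 1
  · refine ⟨⟨orderOf (M.s 0), by omega⟩, key _ ?_⟩
    intro w hw
    rw [eval_zexp, ← orderOf_dvd_iff_zpow_eq_one]
  · refine ⟨⟨0, by omega⟩, key _ ?_⟩
    intro w hw
    rw [eval_zexp, ← orderOf_dvd_iff_zpow_eq_one]
    have hb := zexp_bound w
    constructor
    · intro h
      have h0 : zexp w = 0 := Int.eq_zero_of_abs_lt_dvd h (by omega)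
      rw [h0]
      exact dvd_zero _
    · intro h
      have h0 : zexp w = 0 := by simpa using h
      rw [h0]
      exact dvd_zero _

theorem f_one_le (n : ℕ) : f 1 n ≤ 2 * n + 2 := by
  have hinj : Function.Injective (fun q : BallClass 1 n => (relSet_one n q).choose) := by
    intro q q' h
    have h' : (relSet_one n q).choose = (relSet_one n q').choose := h
    apply relSet_injective 1 n
    rw [(relSet_one n q).choose_spec, (relSet_one n q').choose_spec, h']
  have := Nat.card_le_card_of_injective _ hinj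
  rw [Nat.card_eq_fintype_card (α := Fin (2 * n + 2)), Fintype.card_fin] at this
  exact this

/-- The marked cyclic group of order `k + 1`. -/
def cyc (k : ℕ) : MarkedGroup 1 where
  G := Multiplicative (ZMod (k + 1))
  s := fun _ => Multiplicative.ofAdd 1
  gen := by
    rw [eq_top_iff]
    intro x _
    have hx : x = (Multiplicative.ofAdd (1 : ZMod (k + 1))) ^ (Multiplicative.toAdd x).val := by
      rw [← ofAdd_nsmul, nsmul_eq_mul, mul_one, ZMod.natCast_val, ZMod.cast_id', id,
        ofAdd_toAdd]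
    rw [hx]
    refine Subgroup.pow_mem _ (Subgroup.subset_closure ?_) _
    exact ⟨0, rfl⟩

theorem cyc_order (k : ℕ) : orderOf ((cyc k).s 0) = k + 1 := by
  change orderOf (Multiplicative.ofAdd (1 : ZMod (k + 1))) = k + 1
  rw [orderOf_ofAdd_eq_addOrderOf, ZMod.addOrderOf_one]

theorem cyc_ne {n k k' : ℕ} (hkk : k < k') (hk' : k' < 2 * n + 2) : ¬ BallIso n (cyc k) (cyc k') := by
  intro h
  have hz : ∀ m : ℕ, zexp (List.replicate m (0, true)) = m := by
    intro m
    simp [zexp]
  have h1 := ballIso_iff.1 h (List.replicate (k + 1) (0, true)) (by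
    rw [List.length_replicate]; omega)
  rw [eval_zexp, eval_zexp, hz, zpow_natCast, zpow_natCast, ← orderOf_dvd_iff_pow_eq_one,
    ← orderOf_dvd_iff_pow_eq_one, cyc_order, cyc_order] at h1
  have h2 := Nat.le_of_dvd (by omega) (h1.1 dvd_rfl)
  omega

theorem le_g_one (n : ℕ) : 2 * n + 2 ≤ g 1 n := by
  let F : Fin (2 * n + 2) → {q : BallClass 1 n // ∃ M : MarkedGroup 1, Finite M.G ∧
      (Quotient.mk (ballSetoid 1 n) M : BallClass 1 n) = q} := fun k =>
    ⟨Quotient.mk (ballSetoid 1 n) (cyc k.1), cyc k.1,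
      (inferInstance : Finite (ZMod (k.1 + 1))), rfl⟩
  have hF : Function.Injective F := by
    intro k k' h
    have h1 : (Quotient.mk (ballSetoid 1 n) (cyc k.1) : BallClass 1 n) =
      Quotient.mk (ballSetoid 1 n) (cyc k'.1) := congrArg Subtype.val h
    have h2 : BallIso n (cyc k.1) (cyc k'.1) := Quotient.exact h1
    apply Fin.ext
    rcases lt_trichotomy k.1 k'.1 with h3 | h3 | h3
    · exact absurd h2 (cyc_ne h3 k'.2)
    · exact h3
    · exact absurd (ballIso_symm h2) (cyc_ne h3 k.2)
  have := Nat.card_le_card_of_injective F hF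
  rw [Nat.card_eq_fintype_card (α := Fin (2 * n + 2)), Fintype.card_fin] at this
  exact this

end one


/-! ### The lower bound for `d ≥ 2` -/

section fibre

open Classical in
/-- the fibre permutations -/
noncomputable def fib {H : Type} [Group H] (A : Set H) (y : H) : Equiv.Perm (Fin 3) :=
  if y = 1 then finRotate 3 else if y ∈ A then Equiv.swap 0 1 else 1

theorem fin3_noncomm : ∀ p : Equiv.Perm (Fin 3),
    (finRotate 3) ^ 2 * (p⁻¹ * (Equiv.swap 0 1 : Equiv.Perm (Fin 3)) ^ 3 * p) ≠
      (p⁻¹ * (Equiv.swap 0 1 : Equiv.Perm (Fin 3)) ^ 3 * p) * (finRotate 3) ^ 2 := by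
  decide

variable {H : Type} [Group H]

/-- `(y, k) ↦ (b y, k)` -/
def bP (b : H) : Equiv.Perm (H × Fin 3) := Equiv.prodShear (Equiv.mulLeft b) (fun _ => Equiv.refl _)

/-- `(y, k) ↦ (a y, x_y k)` -/
noncomputable def cP (a : H) (A : Set H) : Equiv.Perm (H × Fin 3) :=
  Equiv.prodShear (Equiv.mulLeft a) (fib A)

theorem bP_apply (b : H) (y : H) (k : Fin 3) : bP b (y, k) = (b * y, k) := rfl
theorem cP_apply (a : H) (A : Set H) (y : H) (k : Fin 3) : cP a A (y, k) = (a * y, fib A y k) := rfl

/-- the generators -/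
noncomputable def sgen (d : ℕ) (a b : H) (A : Set H) (i : Fin d) : Equiv.Perm (H × Fin 3) :=
  if i.1 = 0 then bP b else if i.1 = 1 then cP a A else 1

/-- the generators, as elements of the subgroup they generate -/
noncomputable def mgen (d : ℕ) (a b : H) (A : Set H) (i : Fin d) :
    ↥(Subgroup.closure (Set.range (sgen d a b A))) :=
  ⟨sgen d a b A i, Subgroup.subset_closure ⟨i, rfl⟩⟩

/-- the marked group -/
noncomputable def MG (d : ℕ) (a b : H) (A : Set H) : MarkedGroup d where
  G := ↥(Subgroup.closure (Set.range (sgen d a b A)))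
  s := mgen d a b A
  gen := by
    have h : Set.range (mgen d a b A) =
        ((↑) : ↥(Subgroup.closure (Set.range (sgen d a b A))) → Equiv.Perm (H × Fin 3)) ⁻¹'
          (Set.range (sgen d a b A)) := by
      ext ⟨x, hx⟩
      simp [mgen]
    rw [h]
    exact Subgroup.closure_closure_coe_preimage

theorem eval_mgen (d : ℕ) (a b : H) (A : Set H) (w : List (Fin d × Bool)) :
    (Subgroup.subtype (Subgroup.closure
      (Set.range (sgen d a b A)))) (eval (mgen d a b A) w) = eval (sgen d a b A) w := by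
  induction w with
  | nil => rw [eval_nil, eval_nil]; rfl
  | cons l w ih =>
    rw [eval_cons, eval_cons, ← ih, map_mul]
    congr 1
    rcases l with ⟨i, b'⟩
    cases b' <;> rfl

theorem eval_MG (d : ℕ) (a b : H) (A : Set H) (w : List (Fin d × Bool)) :
    eval (MG d a b A).s w = 1 ↔ eval (sgen d a b A) w = 1 := by
  change eval (mgen d a b A) w = 1 ↔ _
  rw [← eval_mgen]
  exact (map_eq_one_iff (Subgroup.subtype (Subgroup.closure (Set.range (sgen d a b A))))
    (Subgroup.subtype_injective _)).symm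

/-- value in `H` -/
def hval (a b : H) : List Bool → H
  | [] => 1
  | e :: l => (if e then a * b else b) * hval a b l

theorem hval_append (a b : H) (l l' : List Bool) :
    hval a b (l ++ l') = hval a b l * hval a b l' := by
  induction l with
  | nil => simp [hval]
  | cons e l ih => simp only [List.cons_append, hval, ih, mul_assoc]

variable {d : ℕ} (hd : 2 ≤ d)

/-- letter `b` -/
def LB : Fin d × Bool := (⟨0, by omega⟩, true)
/-- letter `c` -/
def LC : Fin d × Bool := (⟨1, by omega⟩, true)

/-- the words -/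
def wd : List Bool → List (Fin d × Bool)
  | [] => []
  | e :: l => (if e then [LC hd, LB hd] else [LB hd]) ++ wd l

theorem wd_length (l : List Bool) : (wd hd l).length ≤ 2 * l.length := by
  induction l with
  | nil => simp [wd]
  | cons e l ih =>
    simp only [wd, List.length_append, List.length_cons]
    cases e <;> simp <;> omega

theorem eval_LB (a b : H) (A : Set H) : letter (sgen d a b A) (LB hd) = bP b := by
  simp [letter, LB, sgen]
theorem eval_LC (a b : H) (A : Set H) : letter (sgen d a b A) (LC hd) = cP a A := by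
  simp [letter, LC, sgen]

theorem wd_eval (a b : H) (A : Set H) (l : List Bool) : ∃ P : H → Equiv.Perm (Fin 3),
    ∀ y k, eval (sgen d a b A) (wd hd l) (y, k) = (hval a b l * y, P y k) := by
  induction l with
  | nil =>
    refine ⟨fun _ => 1, fun y k => ?_⟩
    simp [wd, eval, hval]
  | cons e l ih =>
    obtain ⟨P, hP⟩ := ih
    cases e with
    | true =>
      refine ⟨fun y => fib A (b * (hval a b l * y)) * P y, fun y k => ?_⟩
      have h1 : wd hd (true :: l) = LC hd :: LB hd :: wd hd l := by simp [wd]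
      rw [h1, eval_cons, eval_cons, eval_LB, eval_LC, Equiv.Perm.mul_apply, Equiv.Perm.mul_apply,
        hP, bP_apply, cP_apply]
      simp [hval, mul_assoc]
    | false =>
      refine ⟨P, fun y k => ?_⟩
      have h1 : wd hd (false :: l) = LB hd :: wd hd l := by simp [wd]
      rw [h1, eval_cons, eval_LB, Equiv.Perm.mul_apply, hP, bP_apply]
      simp [hval, mul_assoc]

/-- a fibrewise permutation -/
def fibP (Z : H → Equiv.Perm (Fin 3)) : Equiv.Perm (H × Fin 3) :=
  Equiv.prodShear (Equiv.refl H) Z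

omit [Group H] in
theorem fibP_apply (Z : H → Equiv.Perm (Fin 3)) (y : H) (k : Fin 3) :
    fibP Z (y, k) = (y, Z y k) := rfl

omit [Group H] in
theorem fibP_mul (Z Z' : H → Equiv.Perm (Fin 3)) :
    fibP Z * fibP Z' = fibP (fun y => Z y * Z' y) := by
  ext1 ⟨y, k⟩
  rfl

omit [Group H] in
theorem fibP_pow (Z : H → Equiv.Perm (Fin 3)) (n : ℕ) :
    fibP Z ^ n = fibP (fun y => Z y ^ n) := by
  induction n with
  | zero =>
    ext1 ⟨y, k⟩
    simp [fibP_apply]
  | succ n ih =>
    rw [pow_succ, ih, fibP_mul]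
    simp only [pow_succ]

/-- the fibre function of `c²` -/
noncomputable def XX (a : H) (A : Set H) (y : H) : Equiv.Perm (Fin 3) := fib A (a * y) * fib A y

theorem cP_sq (a : H) (A : Set H) (ha : a * a = 1) : cP a A ^ 2 = fibP (XX a A) := by
  ext1 ⟨y, k⟩
  rw [pow_two, Equiv.Perm.mul_apply, cP_apply, cP_apply, fibP_apply, ← mul_assoc, ha, one_mul]
  rfl

/-- the test word -/
def tau (l : List Bool) : List (Fin d × Bool) :=
  List.replicate 4 (LC hd) ++ (winv (wd hd l) ++ (List.replicate 6 (LC hd) ++ (wd hd l ++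
    (winv (List.replicate 4 (LC hd)) ++ (winv (wd hd l) ++ (winv (List.replicate 6 (LC hd)) ++
      wd hd l))))))

theorem tau_length (l : List Bool) : (tau hd l).length ≤ 20 + 8 * l.length := by
  have := wd_length hd l
  simp only [tau, List.length_append, winv_length, List.length_replicate]
  omega

theorem eval_replicate (s : Fin d → H) (l : Fin d × Bool) (m : ℕ) :
    eval s (List.replicate m l) = letter s l ^ m := by simp [eval]

theorem tau_eval (a b : H) (A : Set H) (ha : a * a = 1) (l : List Bool) :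
    ∃ P : H → Equiv.Perm (Fin 3), (eval (sgen d a b A) (tau hd l) = 1 ↔
      ∀ y, XX a A y ^ 2 * ((P y)⁻¹ * XX a A (hval a b l * y) ^ 3 * P y) =
        ((P y)⁻¹ * XX a A (hval a b l * y) ^ 3 * P y) * XX a A y ^ 2) := by
  obtain ⟨P, hP⟩ := wd_eval hd a b A l
  refine ⟨P, ?_⟩
  have h4 : cP a A ^ 4 = fibP (fun y => XX a A y ^ 2) := by
    rw [show 4 = 2 * 2 from rfl, pow_mul, cP_sq a A ha, fibP_pow]
  have h6 : cP a A ^ 6 = fibP (fun y => XX a A y ^ 3) := by
    rw [show 6 = 2 * 3 from rfl, pow_mul, cP_sq a A ha, fibP_pow]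
  have hK : (eval (sgen d a b A) (wd hd l))⁻¹ * fibP (fun y => XX a A y ^ 3) *
      eval (sgen d a b A) (wd hd l) =
      fibP (fun y => (P y)⁻¹ * XX a A (hval a b l * y) ^ 3 * P y) := by
    rw [mul_assoc, inv_mul_eq_iff_eq_mul]
    ext1 ⟨y, k⟩
    rw [Equiv.Perm.mul_apply, hP, fibP_apply, Equiv.Perm.mul_apply, fibP_apply, hP]
    simp [Equiv.Perm.mul_apply]
  have hE : eval (sgen d a b A) (tau hd l) =
      cP a A ^ 4 * ((eval (sgen d a b A) (wd hd l))⁻¹ * fibP (fun y => XX a A y ^ 3) *
        eval (sgen d a b A) (wd hd l)) * (cP a A ^ 4)⁻¹ *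
        ((eval (sgen d a b A) (wd hd l))⁻¹ * fibP (fun y => XX a A y ^ 3) *
        eval (sgen d a b A) (wd hd l))⁻¹ := by
    simp only [tau, eval_append, eval_winv, eval_replicate, eval_LC, h6]
    group
  rw [hE, hK, h4, mul_inv_eq_one, mul_inv_eq_iff_eq_mul, fibP_mul, fibP_mul]
  constructor
  · intro h y
    ext1 k
    have := congrArg (fun σ : Equiv.Perm (H × Fin 3) => (σ (y, k)).2) h
    exact this
  · intro h
    congr 1
    funext y
    exact h y

theorem main_test (a b : H) (E A : Set H) (ha : a * a = 1) (ha1 : a ≠ 1) (hE1 : (1 : H) ∉ E)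
    (hEa : a ∉ E) (hE2 : ∀ e ∈ E, ∀ e' ∈ E, e' ≠ a * e) (hE3 : ∀ e ∈ E, ∀ e' ∈ E, e' ≠ e * a)
    (hE4 : ∀ e ∈ E, ∀ e' ∈ E, e' ≠ a * (e * a)) (hA : A ⊆ E) (l : List Bool)
    (hl : hval a b l ∈ E) :
    eval (sgen d a b A) (tau hd l) = 1 ↔ hval a b l ∉ A := by
  obtain ⟨P, hP⟩ := tau_eval hd a b A ha l
  rw [hP]
  generalize hval a b l = h at *
  have hainv : a⁻¹ = a := inv_eq_of_mul_eq_one_left ha
  have h1 : h ≠ 1 := fun h0 => hE1 (h0 ▸ hl)
  have h2 : h ≠ a := fun h0 => hEa (h0 ▸ hl)
  have h3 : a * h ≠ 1 := by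
    intro h0
    rw [mul_eq_one_iff_inv_eq, hainv] at h0
    exact h2 h0.symm
  have h4 : a * h ∉ A := fun h0 => hE2 _ hl _ (hA h0) rfl
  have h5 : h * a ≠ 1 := by
    intro h0
    rw [mul_eq_one_iff_eq_inv, hainv] at h0
    exact h2 h0
  have h6 : h * a ∉ A := fun h0 => hE3 _ hl _ (hA h0) rfl
  have h7 : a * (h * a) ≠ 1 := by
    intro h0
    rw [← mul_assoc, mul_eq_one_iff_eq_inv, hainv] at h0
    exact h1 (by simpa using h0)
  have h8 : a * (h * a) ∉ A := fun h0 => hE4 _ hl _ (hA h0) rfl
  have h9 : a ∉ A := fun h0 => hEa (hA h0)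
  constructor
  · intro hc hhA
    have hc1 := hc 1
    have e1 : XX a A 1 = finRotate 3 := by
      simp [XX, fib, ha1, h9]
    have e2 : XX a A (h * 1) = Equiv.swap 0 1 := by
      simp [XX, fib, h3, h4, h1, hhA]
    rw [e1, e2] at hc1
    exact fin3_noncomm _ hc1
  · intro hhA y
    by_cases hy1 : y = 1
    · have e2 : XX a A (h * y) = 1 := by
        simp [XX, fib, hy1, h3, h4, h1, hhA]
      rw [e2]
      simp
    by_cases hya : y = a
    · have e2 : XX a A (h * y) = 1 := by
        simp [XX, fib, hya, h5, h6, h7, h8]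
      rw [e2]
      simp
    · have hay : a * y ≠ 1 := by
        intro h0
        rw [mul_eq_one_iff_inv_eq, hainv] at h0
        exact hya h0.symm
      have hs : (Equiv.swap 0 1 : Equiv.Perm (Fin 3)) ^ 2 = 1 := by decide
      have e1 : XX a A y ^ 2 = 1 := by
        by_cases i1 : y ∈ A <;> by_cases i2 : a * y ∈ A <;> simp [XX, fib, hy1, hay, i1, i2, hs]
      rw [e1]
      simp

end fibre


section affine

/-- integer model -/
def TT : List Bool → ℤ → ℤ
  | [], z => z
  | e :: l, z => if e then 1 - 2 * TT l z else 2 * TT l z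

theorem TT_append (l l' : List Bool) (z : ℤ) : TT (l ++ l') z = TT l (TT l' z) := by
  induction l with
  | nil => rfl
  | cons e l ih => simp only [List.cons_append, TT, ih]

theorem TT_affine (l : List Bool) : ∃ σ : ℤ, (σ = 1 ∨ σ = -1) ∧
    ∀ z, TT l z = TT l 0 + σ * 2 ^ l.length * z := by
  induction l with
  | nil => exact ⟨1, Or.inl rfl, fun z => by simp [TT]⟩
  | cons e l ih =>
    obtain ⟨σ, hσ, h⟩ := ih
    cases e with
    | true =>
      refine ⟨-σ, by omega, fun z => ?_⟩
      simp only [TT, if_true, List.length_cons, pow_succ]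
      rw [h z]
      ring
    | false =>
      refine ⟨σ, hσ, fun z => ?_⟩
      simp only [TT, Bool.false_eq_true, if_false, List.length_cons, pow_succ]
      rw [h z]
      ring

theorem TT_bound (l : List Bool) : |TT l 0| ≤ 2 ^ l.length - 1 := by
  induction l with
  | nil => simp [TT]
  | cons e l ih =>
    rw [abs_le] at *
    simp only [List.length_cons, pow_succ]
    cases e <;> simp [TT] <;> constructor <;> omega

theorem TT_inj : ∀ (l l' : List Bool), l.length = l'.length → TT l 0 = TT l' 0 → l = l'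
  | [], [], _, _ => rfl
  | [], _ :: _, h, _ => by simp at h
  | _ :: _, [], h, _ => by simp at h
  | e :: l, e' :: l', h, h' => by
    have hl : l.length = l'.length := by simpa using h
    cases e <;> cases e' <;> simp only [TT, Bool.false_eq_true, if_true, if_false] at h'
    · rw [TT_inj l l' hl (by omega)]
    · omega
    · omega
    · rw [TT_inj l l' hl (by omega)]

/-- modulus -/
def MM (m : ℕ) : ℕ := 2 ^ (m + 5) + 1

theorem MM_coprime (m : ℕ) : Nat.Coprime 2 (MM m) := by
  rw [Nat.coprime_two_left]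
  refine Even.add_one ?_
  rw [pow_succ]
  exact ⟨2 ^ (m + 4), by ring⟩

/-- `y ↦ 1 - y` -/
def aa (m : ℕ) : Equiv.Perm (ZMod (MM m)) := Equiv.subLeft 1
/-- `y ↦ 2 y` -/
def bb (m : ℕ) : Equiv.Perm (ZMod (MM m)) := Units.mulLeft (ZMod.unitOfCoprime 2 (MM_coprime m))

theorem aa_apply (m : ℕ) (y : ZMod (MM m)) : aa m y = 1 - y := rfl
theorem bb_apply (m : ℕ) (y : ZMod (MM m)) : bb m y = 2 * y := by
  simp [bb]

theorem hval_TT (m : ℕ) (l : List Bool) (z : ℤ) :
    hval (aa m) (bb m) l ((z : ℤ) : ZMod (MM m)) = ((TT l z : ℤ) : ZMod (MM m)) := by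
  induction l with
  | nil => rfl
  | cons e l ih =>
    cases e with
    | true =>
      simp only [hval, if_true, Equiv.Perm.mul_apply, ih, bb_apply, aa_apply, TT]
      push_cast
      ring
    | false =>
      simp only [hval, Bool.false_eq_true, if_false, Equiv.Perm.mul_apply, ih, bb_apply, TT]
      push_cast
      ring

theorem zmod_eq {m : ℕ} {x y : ℤ} (h : ((x : ℤ) : ZMod (MM m)) = ((y : ℤ) : ZMod (MM m)))
    (hb : |y - x| < 32 * 2 ^ m + 1) : x = y := by
  rw [ZMod.intCast_eq_intCast_iff_dvd_sub] at h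
  have hM : ((MM m : ℕ) : ℤ) = 32 * 2 ^ m + 1 := by
    simp only [MM]
    push_cast
    ring
  have := Int.eq_zero_of_abs_lt_dvd h (by rw [hM]; exact hb)
  omega

/-- the special words -/
def sp (l : List Bool) : List Bool := false :: (l ++ [false, false])

theorem sp_data (m : ℕ) (l : List Bool) (hl : l.length = m) :
    |TT l 0| < 2 ^ m ∧ TT (sp l) 0 = 2 * TT l 0 ∧
      (TT (sp l) 1 = 2 * TT l 0 + 8 * 2 ^ m ∨ TT (sp l) 1 = 2 * TT l 0 - 8 * 2 ^ m) := by
  obtain ⟨σ, hσ, h⟩ := TT_affine l
  have hb := TT_bound l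
  rw [hl] at h hb
  refine ⟨by omega, ?_, ?_⟩
  · simp [sp, TT, TT_append]
  · have e1 : TT (sp l) 1 = 2 * TT l 4 := by
      simp [sp, TT, TT_append]
    rw [e1, h 4]
    rcases hσ with rfl | rfl
    · left; ring
    · right; ring

/-- the set of special elements -/
def EE (m : ℕ) : Set (Equiv.Perm (ZMod (MM m))) :=
  {h | ∃ l : List Bool, l.length = m ∧ hval (aa m) (bb m) (sp l) = h}

theorem sp_at0 (m : ℕ) (l : List Bool) : hval (aa m) (bb m) (sp l) 0 =
    ((TT (sp l) 0 : ℤ) : ZMod (MM m)) := by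
  have := hval_TT m (sp l) 0
  simpa using this

theorem sp_at1 (m : ℕ) (l : List Bool) : hval (aa m) (bb m) (sp l) 1 =
    ((TT (sp l) 1 : ℤ) : ZMod (MM m)) := by
  have := hval_TT m (sp l) 1
  simpa using this

theorem sp_inj (m : ℕ) (l l' : List Bool) (hl : l.length = m) (hl' : l'.length = m)
    (h : hval (aa m) (bb m) (sp l) = hval (aa m) (bb m) (sp l')) : l = l' := by
  obtain ⟨h1, h2, h3⟩ := sp_data m l hl
  obtain ⟨h1', h2', h3'⟩ := sp_data m l' hl'
  have h0 := congrArg (fun σ : Equiv.Perm (ZMod (MM m)) => σ 0) h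
  simp only [sp_at0] at h0
  rw [h2, h2'] at h0
  rw [abs_lt] at h1 h1'
  have := zmod_eq h0 (by rw [abs_lt]; constructor <;> linarith)
  exact TT_inj l l' (hl.trans hl'.symm) (by omega)

theorem EE_one (m : ℕ) : (1 : Equiv.Perm (ZMod (MM m))) ∉ EE m := by
  rintro ⟨l, hl, h⟩
  obtain ⟨h1, h2, h3⟩ := sp_data m l hl
  have h0 := congrArg (fun σ : Equiv.Perm (ZMod (MM m)) => σ 1) h
  simp only [sp_at1, Equiv.Perm.one_apply] at h0
  rw [abs_lt] at h1
  replace h0 : ((TT (sp l) 1 : ℤ) : ZMod (MM m)) = ((1 : ℤ) : ZMod (MM m)) := by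
    rw [h0, Int.cast_one]
  have h4 := zmod_eq h0 (by rw [abs_lt]; constructor <;> rcases h3 with h3 | h3 <;> rw [h3] <;>
    linarith)
  omega

theorem EE_a (m : ℕ) : aa m ∉ EE m := by
  rintro ⟨l, hl, h⟩
  obtain ⟨h1, h2, h3⟩ := sp_data m l hl
  have h0 := congrArg (fun σ : Equiv.Perm (ZMod (MM m)) => σ 0) h
  simp only [sp_at0, aa_apply, sub_zero] at h0
  rw [abs_lt] at h1
  rw [h2] at h0
  replace h0 : ((2 * TT l 0 : ℤ) : ZMod (MM m)) = ((1 : ℤ) : ZMod (MM m)) := by
    rw [h0, Int.cast_one]
  have h4 := zmod_eq h0 (by rw [abs_lt]; constructor <;> linarith)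
  omega

theorem EE_2 (m : ℕ) : ∀ e ∈ EE m, ∀ e' ∈ EE m, e' ≠ aa m * e := by
  rintro e ⟨l, hl, rfl⟩ e' ⟨l', hl', rfl⟩ h
  obtain ⟨h1, h2, h3⟩ := sp_data m l hl
  obtain ⟨h1', h2', h3'⟩ := sp_data m l' hl'
  have h0 := congrArg (fun σ : Equiv.Perm (ZMod (MM m)) => σ 0) h
  simp only [sp_at0, Equiv.Perm.mul_apply, aa_apply] at h0
  rw [abs_lt] at h1 h1'
  rw [h2, h2'] at h0
  replace h0 : ((2 * TT l' 0 : ℤ) : ZMod (MM m)) = ((1 - 2 * TT l 0 : ℤ) : ZMod (MM m)) := by
    rw [h0, Int.cast_sub, Int.cast_one]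
  have h4 := zmod_eq h0 (by rw [abs_lt]; constructor <;> linarith)
  omega

theorem EE_3 (m : ℕ) : ∀ e ∈ EE m, ∀ e' ∈ EE m, e' ≠ e * aa m := by
  rintro e ⟨l, hl, rfl⟩ e' ⟨l', hl', rfl⟩ h
  obtain ⟨h1, h2, h3⟩ := sp_data m l hl
  obtain ⟨h1', h2', h3'⟩ := sp_data m l' hl'
  have h0 := congrArg (fun σ : Equiv.Perm (ZMod (MM m)) => σ 0) h
  simp only [sp_at0, Equiv.Perm.mul_apply, aa_apply, sub_zero, sp_at1] at h0
  rw [abs_lt] at h1 h1'
  rw [h2'] at h0
  have h4 := zmod_eq h0 (by rw [abs_lt]; constructor <;> rcases h3 with h3 | h3 <;> rw [h3] <;>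
    linarith)
  omega

theorem EE_4 (m : ℕ) : ∀ e ∈ EE m, ∀ e' ∈ EE m, e' ≠ aa m * (e * aa m) := by
  rintro e ⟨l, hl, rfl⟩ e' ⟨l', hl', rfl⟩ h
  obtain ⟨h1, h2, h3⟩ := sp_data m l hl
  obtain ⟨h1', h2', h3'⟩ := sp_data m l' hl'
  have h0 := congrArg (fun σ : Equiv.Perm (ZMod (MM m)) => σ 0) h
  simp only [sp_at0, Equiv.Perm.mul_apply, aa_apply, sub_zero, sp_at1] at h0
  rw [abs_lt] at h1 h1'
  rw [h2'] at h0
  replace h0 : ((2 * TT l' 0 : ℤ) : ZMod (MM m)) = ((1 - TT (sp l) 1 : ℤ) : ZMod (MM m)) := by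
    rw [h0, Int.cast_sub, Int.cast_one]
  have h4 := zmod_eq h0 (by rw [abs_lt]; constructor <;> rcases h3 with h3 | h3 <;> rw [h3] <;>
    linarith)
  omega

theorem aa_sq (m : ℕ) : aa m * aa m = 1 := by
  ext1 y
  simp [Equiv.Perm.mul_apply, aa_apply]

theorem aa_ne (m : ℕ) : aa m ≠ 1 := by
  intro h
  have h0 := congrArg (fun σ : Equiv.Perm (ZMod (MM m)) => σ 0) h
  simp only [aa_apply, Equiv.Perm.one_apply, sub_zero] at h0
  have h1 : ((1 : ℤ) : ZMod (MM m)) = ((0 : ℤ) : ZMod (MM m)) := by
    rw [Int.cast_one, Int.cast_zero, h0]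
  have := zmod_eq h1 (by
    have : (0 : ℤ) < 2 ^ m := by positivity
    rw [abs_lt]; constructor <;> linarith)
  omega

end affine

instance MM_neZero (m : ℕ) : NeZero (MM m) := ⟨by simp [MM]⟩

/-- the subset of special elements given by a set of words -/
def AA (m : ℕ) (S : Set (List.Vector Bool m)) : Set (Equiv.Perm (ZMod (MM m))) :=
  {h | ∃ l ∈ S, hval (aa m) (bb m) (sp l.1) = h}

theorem AA_sub (m : ℕ) (S : Set (List.Vector Bool m)) : AA m S ⊆ EE m := by
  rintro h ⟨l, _, rfl⟩
  exact ⟨l.1, l.2, rfl⟩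

theorem AA_mem (m : ℕ) (S : Set (List.Vector Bool m)) (l : List.Vector Bool m) :
    hval (aa m) (bb m) (sp l.1) ∈ AA m S ↔ l ∈ S := by
  constructor
  · rintro ⟨l', hl', h⟩
    have := sp_inj m l'.1 l.1 l'.2 l.2 h
    have h2 : l' = l := Subtype.ext this
    rwa [← h2]
  · intro h
    exact ⟨l, h, rfl⟩

theorem pow_le_g {d : ℕ} (hd : 2 ≤ d) {m n : ℕ} (hmn : 44 + 8 * m ≤ 2 * n + 1) :
    2 ^ (2 ^ m) ≤ g d n := by
  let F : Set (List.Vector Bool m) → {q : BallClass d n // ∃ M : MarkedGroup d, Finite M.G ∧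
      (Quotient.mk (ballSetoid d n) M : BallClass d n) = q} := fun S =>
    ⟨Quotient.mk (ballSetoid d n) (MG d (aa m) (bb m) (AA m S)), MG d (aa m) (bb m) (AA m S),
      (inferInstance : Finite ↥(Subgroup.closure (Set.range (sgen d (aa m) (bb m) (AA m S))))),
      rfl⟩
  have hF : Function.Injective F := by
    intro S S' h
    have h1 : (Quotient.mk (ballSetoid d n) (MG d (aa m) (bb m) (AA m S)) : BallClass d n) =
      Quotient.mk (ballSetoid d n) (MG d (aa m) (bb m) (AA m S')) := congrArg Subtype.val h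
    have h2 : BallIso n (MG d (aa m) (bb m) (AA m S)) (MG d (aa m) (bb m) (AA m S')) :=
      Quotient.exact h1
    rw [ballIso_iff] at h2
    ext l
    have hlen : (tau hd (sp l.1)).length ≤ 2 * n + 1 := by
      have h3 := tau_length hd (sp l.1)
      have h4 : (sp l.1).length = m + 3 := by
        simp only [sp, List.length_cons, List.length_append, List.length_nil]
        rw [l.2]
      omega
    have h5 := h2 _ hlen
    have h6 : ∀ S : Set (List.Vector Bool m),
        (eval (sgen d (aa m) (bb m) (AA m S)) (tau hd (sp l.1)) = 1 ↔ l ∉ S) := by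
      intro S
      rw [main_test hd (aa m) (bb m) (EE m) (AA m S) (aa_sq m) (aa_ne m) (EE_one m) (EE_a m)
        (EE_2 m) (EE_3 m) (EE_4 m) (AA_sub m S) (sp l.1) ⟨l.1, l.2, rfl⟩, AA_mem]
    rw [eval_MG, eval_MG, h6, h6] at h5
    exact not_iff_not.1 h5
  have := Nat.card_le_card_of_injective F hF
  rw [card_set', Nat.card_eq_fintype_card, card_vector, Fintype.card_bool] at this
  exact this

/-- **Growth of the number of marked balls.** For `d = 1` both counting functions equal
`2 n + 2`; for every `d ≥ 2` both are doubly exponential in `n`. -/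
theorem result : (∀ n : ℕ, f 1 n = 2 * n + 2 ∧ g 1 n = 2 * n + 2) ∧
    ∀ d : ℕ, 2 ≤ d → ∃ c C : ℝ, 0 < c ∧ ∃ n₀ : ℕ, ∀ n : ℕ, n₀ ≤ n →
      Real.exp (Real.exp (c * n)) ≤ (g d n : ℝ) ∧ (g d n : ℝ) ≤ (f d n : ℝ) ∧
        (f d n : ℝ) ≤ Real.exp (Real.exp (C * n)) := by
  constructor
  · intro n
    have h1 := f_one_le n
    have h2 := le_g_one n
    have h3 := g_le_f 1 n
    omega
  · intro d hd
    refine ⟨Real.log 2 / 16, 3 * Real.log (2 * d + 1), by positivity, 64, ?_⟩
    intro n hn
    have hl2 : (0.6931471803 : ℝ) < Real.log 2 := Real.log_two_gt_d9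
    refine ⟨?_, by exact_mod_cast g_le_f d n, ?_⟩
    · obtain ⟨m, hm1, hm2⟩ : ∃ m : ℕ, 44 + 8 * m ≤ 2 * n + 1 ∧ n ≤ 8 * m := by
        refine ⟨(2 * n - 43) / 8, ?_, ?_⟩ <;> omega
      have h1 := pow_le_g hd hm1
      have h2 : ((2 : ℝ) ^ (2 ^ m)) ≤ (g d n : ℝ) := by exact_mod_cast h1
      refine le_trans ?_ h2
      have h3 : ((2 : ℝ) ^ (2 ^ m)) = Real.exp (Real.log 2 * (2 : ℝ) ^ m) := by
        rw [← Real.exp_log (show (0 : ℝ) < 2 ^ (2 ^ m) by positivity), Real.log_pow]
        push_cast
        ring_nf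
      rw [h3]
      apply Real.exp_le_exp.2
      set z := Real.exp (Real.log 2 / 16 * n) with hz
      have hz2 : z * z ≤ (2 : ℝ) ^ m := by
        have h4 : ((2 : ℝ) ^ m) = Real.exp (Real.log 2 * m) := by
          rw [← Real.exp_log (show (0 : ℝ) < 2 ^ m by positivity), Real.log_pow]
          ring_nf
        rw [h4, hz, ← Real.exp_add]
        apply Real.exp_le_exp.2
        have hm3 : (n : ℝ) ≤ 8 * m := by exact_mod_cast hm2
        nlinarith
      have hz3 : 2 ≤ z := by
        have hn' : (64 : ℝ) ≤ n := by exact_mod_cast hn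
        have h5 : Real.log 2 / 16 * n + 1 ≤ z := Real.add_one_le_exp _
        nlinarith
      nlinarith [mul_le_mul_of_nonneg_left hz2 (le_of_lt (lt_trans (by norm_num) hl2 :
        (0 : ℝ) < Real.log 2)), mul_nonneg (show (0 : ℝ) ≤ z by linarith)
          (show (0 : ℝ) ≤ z - 2 by linarith)]
    · have h1 := f_le d n
      have h2 : (f d n : ℝ) ≤ (2 : ℝ) ^ ((2 * d + 1) ^ (2 * n + 1)) := by exact_mod_cast h1
      refine h2.trans ?_
      have h3 : (2 : ℝ) ^ ((2 * d + 1) ^ (2 * n + 1)) ≤
          Real.exp 1 ^ ((2 * d + 1) ^ (2 * n + 1)) := by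
        apply pow_le_pow_left₀ (by norm_num)
        have := Real.add_one_le_exp (1 : ℝ)
        linarith
      refine h3.trans ?_
      rw [← Real.exp_nat_mul, mul_one]
      apply Real.exp_le_exp.2
      push_cast
      have h4 : (1 : ℝ) ≤ 2 * (d : ℝ) + 1 := by
        have : (0 : ℝ) ≤ d := Nat.cast_nonneg d
        linarith
      have h5 : Real.exp (3 * Real.log (2 * (d : ℝ) + 1) * n) = (2 * (d : ℝ) + 1) ^ (3 * n) := by
        rw [← Real.exp_log (show (0 : ℝ) < (2 * (d : ℝ) + 1) ^ (3 * n) by positivity),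
          Real.log_pow]
        push_cast
        ring_nf
      rw [h5]
      exact pow_le_pow_right₀ h4 (by omega)

end Pool.Agent.Results.MP_0de6ea_al.BallGrowth
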